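import Mathlib

/-!
# A relative projectivity lemma for the extraspecial group of order 27

`R` is a ring of characteristic three with three ring endomorphisms `b`, `n`, `w` generating an
action of the Heisenberg group of order 27 (`n` central, `b w = w n b`).  If the element `1` is a
trace from the abelian subgroup generated by `b` and `n`, then `1` is a sum of three relative traces
from the subgroups generated by `n` and `b ^ i w`, `i = 0, 1, 2`.
-/

set_option autoImplicit false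
set_option linter.unusedSimpArgs false

namespace W371.PV

variable {R : Type*} [Ring R]

/-- sum over a cyclic group of order three -/
def tr3 (g : R →+* R) (x : R) : R := x + g x + g (g x)

structure Heis (b n w : R →+* R) : Prop where
  b3 : ∀ x, b (b (b x)) = x
  n3 : ∀ x, n (n (n x)) = x
  w3 : ∀ x, w (w (w x)) = x
  nb : ∀ x, n (b x) = b (n x)
  nw : ∀ x, n (w x) = w (n x)
  bw : ∀ x, b (w x) = w (n (b x))

/-- the data obtained from an element of trace one -/
structure Data (b n w : R →+* R) (Z D Y : R) : Prop where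
  bZ : b Z = Z
  nZ : n Z = Z + 1
  wZ : w Z = Z + D
  bD : b D = D + 1
  nD : n D = D
  wD : w D = D + Y
  bY : b Y = Y
  nY : n Y = Y
  wY : w Y = Y

theorem exists_data (h3 : (3 : R) = 0) {b n w : R →+* R} (H : Heis b n w) {P : R}
    (hP : tr3 n (tr3 b P) = 1) : ∃ Z D Y : R, Data b n w Z D Y := by
  set Q := tr3 b P with hQ
  have hbQ : b Q = Q := by
    simp only [hQ, tr3, map_add, H.b3]; abel
  refine ⟨n Q - Q, w (n Q - Q) - (n Q - Q), w (w (n Q - Q) - (n Q - Q)) - (w (n Q - Q) - (n Q - Q)), ?_⟩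
  set Z := n Q - Q with hZ
  have bZ : b Z = Z := by simp only [hZ, map_sub, ← H.nb, hbQ]
  have e3 : ∀ x : R, 3 * x = 0 := fun x => by rw [h3, zero_mul]
  have nZ : n Z = Z + 1 := by
    have h1 : n Z = n (n Q) - n Q := by simp [hZ]
    have h2 : n (n Q) = 1 - Q - n Q := by
      rw [← hP]; simp only [tr3]; abel
    rw [h1, h2, hZ]
    have := e3 (n Q)
    linear_combination (norm := noncomm_ring) (-1 : R) * this
  set D := w Z - Z with hD
  have wZ : w Z = Z + D := by rw [hD]; abel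
  have nD : n D = D := by
    simp only [hD, map_sub, H.nw, nZ, map_add, map_one]; abel
  have bD : b D = D + 1 := by
    simp only [hD, map_sub, H.bw, bZ, nZ, map_add, map_one]; abel
  have bY : b (w D - D) = w D - D := by
    simp only [map_sub, H.bw, bD, map_add, map_one, nD]; abel
  have nY : n (w D - D) = w D - D := by
    simp only [map_sub, H.nw, nD]
  have wY : w (w D - D) = w D - D := by
    have h1 : w (w D) = Z - w (w Z) := by
      rw [hD, map_sub, map_sub, H.w3]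
    have h2 : w D = w (w Z) - w Z := by rw [hD, map_sub]
    rw [map_sub, h1, h2, hD]
    have h4 := e3 (w (w Z) - w Z)
    linear_combination (norm := noncomm_ring) (-1 : R) * h4
  exact ⟨bZ, nZ, wZ, bD, nD, by abel, bY, nY, wY⟩

section poly
variable {b n w : R →+* R} {Z D Y : R}

/-- the element whose `w`-difference is `Y ^ 3 - Y` -/
def gg (Z D Y : R) : R :=
  D ^ 3 - D - (((D + Y) * ((Z + D) * (D + Y) - (D + Y) * (Z + D))
      - ((Z + D) * (D + Y) - (D + Y) * (Z + D)) * (D + Y))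
    - (D * (Z * D - D * Z) - (Z * D - D * Z) * D)) - (Y * (Z * D - D * Z) - (Z * D - D * Z) * Y)

theorem gg_b (h3 : (3 : R) = 0) (d : Data b n w Z D Y) : b (gg Z D Y) = gg Z D Y := by
  simp only [gg, map_sub, map_add, map_mul, map_pow, d.bZ, d.bD, d.bY]
  linear_combination (norm := noncomm_ring) (D + D * D) * h3

theorem gg_n (d : Data b n w Z D Y) : n (gg Z D Y) = gg Z D Y := by
  simp only [gg, map_sub, map_add, map_mul, map_pow, d.nZ, d.nD, d.nY]
  noncomm_ring

theorem gg_w (h3 : (3 : R) = 0) (d : Data b n w Z D Y) :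
    w (gg Z D Y) - gg Z D Y = Y ^ 3 - Y := by
  simp only [gg, map_sub, map_add, map_mul, map_pow, d.wZ, d.wD, d.wY]
  linear_combination (norm := noncomm_ring)
    (D*Y*D +2*D*Y*Y -3*Y*D*Y +2*Y*Y*D +Y*Y*Z -2*Y*Z*Y +Z*Y*Y) * h3

theorem tau_tr (h3 : (3 : R) = 0) (d : Data b n w Z D Y) : tr3 b (D - D ^ 2) = 1 := by
  simp only [tr3, map_sub, map_add, map_mul, map_pow, map_one, d.bD]
  linear_combination (norm := noncomm_ring) (-1 - D - D * D) * h3

theorem sig_b (h3 : (3 : R) = 0) (d : Data b n w Z D Y) :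
    b (-(D * Y * D) - D * Y - D * Y ^ 2) - (-(D * Y * D) - D * Y - D * Y ^ 2)
      = w (D - D ^ 2) - (D - D ^ 2) := by
  simp only [map_sub, map_neg, map_add, map_mul, map_pow, map_one, d.bD, d.bY, d.wD]
  linear_combination (norm := noncomm_ring) (-Y) * h3

theorem sig_tr (h3 : (3 : R) = 0) (d : Data b n w Z D Y) :
    tr3 w (-(D * Y * D) - D * Y - D * Y ^ 2) = Y ^ 3 := by
  simp only [tr3, map_sub, map_neg, map_add, map_mul, map_pow, map_one, d.wD, d.wY]
  linear_combination (norm := noncomm_ring)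
    (-D*Y -Y*Y -D*Y*D -2*D*Y*Y -Y*Y*D -3*Y*Y*Y) * h3

/-- the element `nu` -/
def nu (w : R →+* R) (Z D : R) : R := tr3 w (-(Z * D * Z) - Z * D - Z * D ^ 2)

def lam (Z D : R) : R := -D - 3 * Z + D * D + D * Z - Z * D

theorem lam_n (h3 : (3 : R) = 0) (d : Data b n w Z D Y) : n (lam Z D) = lam Z D := by
  simp only [lam, map_sub, map_neg, map_add, map_mul, map_pow, map_one, map_ofNat, d.nD, d.nZ]
  linear_combination (norm := noncomm_ring) (-1 : R) * h3

theorem nu_n (h3 : (3 : R) = 0) (d : Data b n w Z D Y) : n (nu w Z D) = nu w Z D := by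
  simp only [nu, tr3, map_sub, map_neg, map_add, map_mul, map_pow, map_one, d.nD, d.nZ, d.nY,
    d.wZ, d.wD, d.wY]
  linear_combination (norm := noncomm_ring)
    (-2*D -2*Y -3*D*D -3*D*Y -D*Z -3*Y*D -3*Y*Y -Y*Z -Z*D -Z*Y) * h3

theorem nu_w (H : Heis b n w) : w (nu w Z D) = nu w Z D := by
  simp only [nu, tr3, map_add, H.w3]; abel

theorem nu_b (h3 : (3 : R) = 0) (d : Data b n w Z D Y) :
    b (nu w Z D) = nu w Z D + 1 + tr3 w (lam Z D) := by
  simp only [nu, lam, tr3, map_sub, map_neg, map_add, map_mul, map_pow, map_one, map_ofNat,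
    d.bD, d.bZ, d.bY, d.wZ, d.wD, d.wY]
  linear_combination (norm := (noncomm_ring; norm_num))
    (-4 -6*D -8*Y -Z -9*D*D -9*D*Y -3*D*Z -9*Y*D -9*Y*Y -3*Y*Z -3*Z*D -3*Z*Y -Z*Z) * h3

theorem tr3_add (g : R →+* R) (x y : R) : tr3 g (x + y) = tr3 g x + tr3 g y := by
  simp only [tr3, map_add]; abel

theorem tr3_sub (g : R →+* R) (x y : R) : tr3 g (x - y) = tr3 g x - tr3 g y := by
  simp only [tr3, map_sub]; abel

theorem tr3_mul_left (g : R →+* R) {a : R} (ha : g a = a) (x : R) :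
    tr3 g (a * x) = a * tr3 g x := by
  simp only [tr3, map_mul, ha]; noncomm_ring

theorem tr3_mul_right (g : R →+* R) {a : R} (ha : g a = a) (x : R) :
    tr3 g (x * a) = tr3 g x * a := by
  simp only [tr3, map_mul, ha]; noncomm_ring

theorem tr3_diff {g : R →+* R} (hg : ∀ x, g (g (g x)) = x) (x : R) : tr3 g (g x - x) = 0 := by
  simp only [tr3, map_sub, hg]; abel

theorem map_tr3 {g : R →+* R} (hg : ∀ x, g (g (g x)) = x) (x : R) : g (tr3 g x) = tr3 g x := by
  simp only [tr3, map_add, hg]; abel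

theorem key_one (h3 : (3 : R) = 0) (H : Heis b n w) (d : Data b n w Z D Y) :
    ∃ f ρ γ : R, (n f = f ∧ w f = f) ∧ (b ρ = ρ ∧ n ρ = ρ ∧ w ρ = ρ) ∧ (b γ = γ ∧ n γ = γ) ∧
      (1 - tr3 b f) ^ 2 = Y ^ 3 * ρ + tr3 w γ := by
  -- commutation on `n`-invariant elements
  have cbw : ∀ {x : R}, n x = x → b (w x) = w (b x) := by
    intro x hx
    rw [H.bw, H.nb, hx]
  have nbi : ∀ {x : R}, n x = x → n (b x) = b x := fun {x} hx => by rw [H.nb, hx]
  have nwi : ∀ {x : R}, n x = x → n (w x) = w x := fun {x} hx => by rw [H.nw, hx]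
  have ntw : ∀ {x : R}, n x = x → n (tr3 w x) = tr3 w x := by
    intro x hx
    simp only [tr3, map_add, nwi (nwi hx), nwi hx, hx]
  have ntb : ∀ {x : R}, n x = x → n (tr3 b x) = tr3 b x := by
    intro x hx
    simp only [tr3, map_add, nbi (nbi hx), nbi hx, hx]
  have btw : ∀ {x : R}, n x = x → b (tr3 w x) = tr3 w (b x) := by
    intro x hx
    simp only [tr3, map_add, cbw (nwi hx), cbw hx]
  have wtb : ∀ {x : R}, n x = x → w (tr3 b x) = tr3 b (w x) := by
    intro x hx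
    simp only [tr3, map_add, cbw hx, cbw (nbi hx)]
  set ν := nu w Z D with hν
  have nν : n ν = ν := nu_n h3 d
  have wν : w ν = ν := nu_w H
  set l := lam Z D with hl
  have nl : n l = l := lam_n h3 d
  have bν : b ν = ν + 1 + tr3 w l := nu_b h3 d
  set m := tr3 w l with hm
  have wm : w m = m := map_tr3 H.w3 l
  have nm : n m = m := ntw nl
  set m' := b m with hm'
  have hm'' : m' = tr3 w (b l) := by rw [hm', hm, btw nl]
  have wm' : w m' = m' := by rw [hm'']; exact map_tr3 H.w3 _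
  have nm' : n m' = m' := nbi nm
  set f := -ν ^ 2 with hf
  have nf : n f = f := by rw [hf, map_neg, map_pow, nν]
  have wf : w f = f := by rw [hf, map_neg, map_pow, wν]
  set t := 1 - tr3 b f with ht
  set l' := l + b l with hl'
  have tl' : tr3 w l' = m + m' := by rw [hl', tr3_add, ← hm'']
  set s := (ν + 1) * l + l * (ν + 1) + m * l + (ν + 2) * l' + l' * (ν + 2) + (m + m') * l' with hs
  have nbl : n (b l) = b l := nbi nl
  have nl' : n l' = l' := by rw [hl', map_add, nl, nbl]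
  have ns : n s = s := by
    simp only [hs, map_add, map_mul, map_one, map_ofNat, nν, nl, nm, nm', nl']
  have hts : t = tr3 w s := by
    have w1 : w (ν + 1) = ν + 1 := by rw [map_add, wν, map_one]
    have w2 : w (ν + 2) = ν + 2 := by rw [map_add, wν, map_ofNat]
    have w3 : w (m + m') = m + m' := by rw [map_add, wm, wm']
    have e1 : tr3 w s = (ν + 1) * m + m * (ν + 1) + m * m + (ν + 2) * (m + m')
        + (m + m') * (ν + 2) + (m + m') * (m + m') := by
      rw [hs, tr3_add, tr3_add, tr3_add, tr3_add, tr3_add, tr3_mul_left w w1,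
        tr3_mul_right w w1, tr3_mul_left w wm, tr3_mul_left w w2, tr3_mul_right w w2,
        tr3_mul_left w w3, tl', ← hm]
    have e2 : tr3 b f = -(ν ^ 2 + (ν + 1 + m) ^ 2 + (ν + 1 + m + 1 + m') ^ 2) := by
      simp only [tr3, hf, map_neg, map_pow, bν, map_add, map_one, ← hm']
      noncomm_ring
    rw [e1, ht, e2]
    linear_combination (norm := (noncomm_ring; try norm_num)) (2 + 2 * ν + ν * ν) * h3
  have nt : n t = t := by rw [hts]; exact ntw ns
  have wt : w t = t := by rw [hts]; exact map_tr3 H.w3 _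
  have bt : b t = t := by
    rw [ht, map_sub, map_one, map_tr3 H.b3]
  set z := b s - s with hz
  have nz : n z = z := by rw [hz, map_sub, nbi ns, ns]
  have tz : z + w z + w (w z) = 0 := by
    have h1 : tr3 w z = b (tr3 w s) - tr3 w s := by rw [hz, tr3_sub, btw ns]
    have h2 : tr3 w z = 0 := by rw [h1, ← hts, bt, sub_self]
    exact h2
  set r := -(z * w s + w (z * w s) + z * w (w s)) with hr
  have nr : n r = r := by
    simp only [hr, map_neg, map_add, map_mul, nwi (nwi ns), nwi ns, nz, nwi nz]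
  have hzt : w r - r = z * t := by
    have h1 : w (w z) = -z - w z := by linear_combination (norm := abel) tz
    rw [hts]
    simp only [hr, tr3, map_neg, map_add, map_mul, H.w3, h1]
    noncomm_ring
  set ρ := tr3 b r with hρ
  have bρ : b ρ = ρ := map_tr3 H.b3 _
  have nρ : n ρ = ρ := ntb nr
  have wρ : w ρ = ρ := by
    have h1 : w ρ - ρ = tr3 b (z * t) := by rw [hρ, wtb nr, ← tr3_sub, hzt]
    have h2 : tr3 b (z * t) = 0 := by
      rw [tr3_mul_right b bt, hz, tr3_diff H.b3, zero_mul]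
    exact sub_eq_zero.mp (by rw [h1, h2])
  set τ := D - D ^ 2 with hτ
  have nτ : n τ = τ := by rw [hτ, map_sub, map_pow, d.nD]
  have tτ : tr3 b τ = 1 := tau_tr h3 d
  set u := r - τ * ρ with hu
  have nu' : n u = u := by rw [hu, map_sub, map_mul, nr, nτ, nρ]
  have tu : u + b u + b (b u) = 0 := by
    have : tr3 b u = 0 := by
      rw [hu, tr3_sub, tr3_mul_right b bρ, tτ, one_mul, ← hρ, sub_self]
    exact this
  set κ := τ * b (b u) + τ * b u + b (τ * b u) with hκ
  have nκ : n κ = κ := by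
    simp only [hκ, map_add, map_mul, nτ, nbi (nbi nu'), nbi nu', nbi nτ]
  have hκu : b κ - κ = u := by
    have h1 : b (b u) = -u - b u := by linear_combination (norm := abel) tu
    have h2 : b (b τ) = 1 - τ - b τ := by
      have := tτ
      simp only [tr3] at this
      linear_combination (norm := abel) this
    simp only [hκ, map_add, map_mul, H.b3, h1, h2, map_sub, map_neg]
    noncomm_ring
  set σ := -(D * Y * D) - D * Y - D * Y ^ 2 with hσ
  have nσ : n σ = σ := by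
    simp only [hσ, map_sub, map_neg, map_mul, map_pow, d.nD, d.nY]
  have bσ : b σ - σ = w τ - τ := sig_b h3 d
  have tσ : tr3 w σ = Y ^ 3 := sig_tr h3 d
  refine ⟨f, ρ, s * t - σ * ρ - (w κ - κ), ⟨nf, wf⟩, ⟨bρ, nρ, wρ⟩, ⟨?_, ?_⟩, ?_⟩
  · have h1 : b σ = σ + (w τ - τ) := by rw [← bσ]; abel
    have h2 : b κ = κ + u := by rw [← hκu]; abel
    have h3' : b (w κ) = w κ + w u := by rw [cbw nκ, h2, map_add]
    have h4 : b s = s + z := by rw [hz]; abel
    have h5 : w u - u = z * t - (w τ - τ) * ρ := by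
      rw [hu, map_sub, map_mul, wρ, ← hzt]; noncomm_ring
    have h6 : w u = u + (z * t - (w τ - τ) * ρ) := by rw [← h5]; abel
    simp only [map_sub, map_mul, bt, bρ, h1, h2, h3', h4, h6]
    noncomm_ring
  · simp only [map_sub, map_mul, ns, nt, nσ, nρ, nwi nκ, nκ]
  · have e0 : tr3 w (s * t - σ * ρ - (w κ - κ)) = t * t - Y ^ 3 * ρ := by
      rw [tr3_sub, tr3_sub, tr3_mul_right w wt, tr3_mul_right w wρ, tσ, tr3_diff H.w3, ← hts,
        sub_zero]
    rw [e0, sq, add_sub_cancel]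

theorem Heis.next (H : Heis b n w) : Heis b n (b.comp w) where
  b3 := H.b3
  n3 := H.n3
  w3 := by
    intro x
    have wb : ∀ y, w (b y) = n (n (b (w y))) := by
      intro y
      rw [H.bw, H.nw, H.nw, H.n3]
    have bn : ∀ y, b (n y) = n (b y) := fun y => (H.nb y).symm
    have wn : ∀ y, w (n y) = n (w y) := fun y => (H.nw y).symm
    simp only [RingHom.comp_apply, wb, bn, wn, H.b3, H.n3, H.w3]
  nb := H.nb
  nw := by intro x; simp only [RingHom.comp_apply]; rw [H.nb, H.nw]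
  bw := by
    intro x
    simp only [RingHom.comp_apply]
    rw [H.bw]

theorem Data.next (d : Data b n w Z D Y) :
    Data b n (b.comp w) Z (D + 1) (Y + 1) where
  bZ := d.bZ
  nZ := d.nZ
  wZ := by
    simp only [RingHom.comp_apply, d.wZ, map_add, d.bZ, d.bD]
  bD := by simp only [map_add, map_one, d.bD]
  nD := by simp only [map_add, map_one, d.nD]
  wD := by
    simp only [RingHom.comp_apply, map_add, map_one, d.wD, d.bD, d.bY]; abel
  bY := by simp only [map_add, map_one, d.bY]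
  nY := by simp only [map_add, map_one, d.nY]
  wY := by simp only [RingHom.comp_apply, map_add, map_one, d.wY, d.bY]

/-- sums of three traces, from the subgroups generated by `n` and `b ^ i w` -/
def InJ (b n w : R →+* R) (x : R) : Prop :=
  ∃ f0 f1 f2 : R, (n f0 = f0 ∧ w f0 = f0) ∧ (n f1 = f1 ∧ b (w f1) = f1) ∧
    (n f2 = f2 ∧ b (b (w f2)) = f2) ∧ x = tr3 b f0 + tr3 b f1 + tr3 b f2

/-- invariant elements -/
structure Inv (b n w : R →+* R) (x : R) : Prop where
  hb : b x = x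
  hn : n x = x
  hw : w x = x

theorem InJ.add {x y : R} (hx : InJ b n w x) (hy : InJ b n w y) : InJ b n w (x + y) := by
  obtain ⟨f0, f1, f2, ⟨h0, h0'⟩, ⟨h1, h1'⟩, ⟨h2, h2'⟩, rfl⟩ := hx
  obtain ⟨g0, g1, g2, ⟨k0, k0'⟩, ⟨k1, k1'⟩, ⟨k2, k2'⟩, rfl⟩ := hy
  refine ⟨f0 + g0, f1 + g1, f2 + g2, ⟨by rw [map_add, h0, k0], by rw [map_add, h0', k0']⟩,
    ⟨by rw [map_add, h1, k1], by rw [map_add, map_add, h1', k1']⟩,
    ⟨by rw [map_add, h2, k2], by rw [map_add, map_add, map_add, h2', k2']⟩, ?_⟩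
  simp only [tr3_add]; abel

theorem InJ.mul_left {c x : R} (hc : Inv b n w c) (hx : InJ b n w x) : InJ b n w (c * x) := by
  obtain ⟨f0, f1, f2, ⟨h0, h0'⟩, ⟨h1, h1'⟩, ⟨h2, h2'⟩, rfl⟩ := hx
  refine ⟨c * f0, c * f1, c * f2, ⟨by rw [map_mul, h0, hc.hn], by rw [map_mul, h0', hc.hw]⟩,
    ⟨by rw [map_mul, h1, hc.hn], by rw [map_mul, map_mul, h1', hc.hw, hc.hb]⟩,
    ⟨by rw [map_mul, h2, hc.hn], by rw [map_mul, map_mul, map_mul, h2', hc.hw, hc.hb, hc.hb]⟩, ?_⟩
  simp only [tr3_mul_left b hc.hb, mul_add]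

theorem InJ.mul_right {c x : R} (hc : Inv b n w c) (hx : InJ b n w x) : InJ b n w (x * c) := by
  obtain ⟨f0, f1, f2, ⟨h0, h0'⟩, ⟨h1, h1'⟩, ⟨h2, h2'⟩, rfl⟩ := hx
  refine ⟨f0 * c, f1 * c, f2 * c, ⟨by rw [map_mul, h0, hc.hn], by rw [map_mul, h0', hc.hw]⟩,
    ⟨by rw [map_mul, h1, hc.hn], by rw [map_mul, map_mul, h1', hc.hw, hc.hb]⟩,
    ⟨by rw [map_mul, h2, hc.hn], by rw [map_mul, map_mul, map_mul, h2', hc.hw, hc.hb, hc.hb]⟩, ?_⟩
  simp only [tr3_mul_right b hc.hb, add_mul]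

/-- the key lemma -/
theorem key (h3 : (3 : R) = 0) (H : Heis b n w) {P : R} (hP : tr3 n (tr3 b P) = 1) :
    InJ b n w 1 := by
  obtain ⟨Z, D, Y, d⟩ := exists_data h3 H hP
  -- commutation on `n`-invariant elements
  have cbw : ∀ {x : R}, n x = x → b (w x) = w (b x) := by
    intro x hx
    rw [H.bw, H.nb, hx]
  have nbi : ∀ {x : R}, n x = x → n (b x) = b x := fun {x} hx => by rw [H.nb, hx]
  have nwi : ∀ {x : R}, n x = x → n (w x) = w x := fun {x} hx => by rw [H.nw, hx]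
  have ntb : ∀ {x : R}, n x = x → n (tr3 b x) = tr3 b x := by
    intro x hx
    simp only [tr3, map_add, nbi (nbi hx), nbi hx, hx]
  have wtb : ∀ {x : R}, n x = x → w (tr3 b x) = tr3 b (w x) := by
    intro x hx
    simp only [tr3, map_add, cbw hx, cbw (nbi hx)]
  -- traces of elements fixed by `b`, `n`
  have trJ : ∀ {γ : R}, b γ = γ → n γ = γ → InJ b n w (tr3 w γ) := by
    intro γ hb hn
    have nτ : n (D - D ^ 2) = D - D ^ 2 := by rw [map_sub, map_pow, d.nD]
    set x := γ * (D - D ^ 2) with hx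
    have nx : n x = x := by rw [hx, map_mul, hn, nτ]
    have tx : tr3 b x = γ := by rw [hx, tr3_mul_left b hb, tau_tr h3 d, mul_one]
    have ntx : n (tr3 w x) = tr3 w x := by
      simp only [tr3, map_add, nwi (nwi nx), nwi nx, nx]
    refine ⟨tr3 w x, 0, 0, ⟨ntx, map_tr3 H.w3 _⟩, by simp, by simp, ?_⟩
    have e1 : tr3 b (tr3 w x) = tr3 w (tr3 b x) := by
      simp only [tr3, map_add, cbw (nwi nx), cbw nx, cbw (nbi nx), cbw (nwi (nbi nx)),
        cbw (nbi (nbi nx)), cbw (nwi (nbi (nbi nx)))]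
      abel
    have e2 : tr3 b (0 : R) = 0 := by simp [tr3]
    rw [e1, tx, e2, add_zero, add_zero]
  -- the three invariants
  have main : ∀ w' : R →+* R, Heis b n w' → ∀ D' Y' : R, Data b n w' Z D' Y' →
      (∀ x, n x = x → b x = x → w' x = x → w x = x) →
      (∀ x, b x = x → n x = x → tr3 w' x = tr3 w x) →
      (∀ f, n f = f → w' f = f → InJ b n w (tr3 b f)) →
      ∃ ρ, Inv b n w ρ ∧ InJ b n w (1 - Y' ^ 3 * ρ) := by
    intro w' H' D' Y' d' hw' htr hJ
    obtain ⟨f, ρ, γ, ⟨nf, wf⟩, ⟨bρ, nρ, wρ⟩, ⟨bγ, nγ⟩, e⟩ := key_one h3 H' d'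
    refine ⟨ρ, ⟨bρ, nρ, hw' ρ nρ bρ wρ⟩, ?_⟩
    have bt : b (tr3 b f) = tr3 b f := map_tr3 H.b3 f
    have wt' : w' (tr3 b f) = tr3 b f := by
      have c' : ∀ {x : R}, n x = x → b (w' x) = w' (b x) := by
        intro x hx
        rw [H'.bw, H.nb, hx]
      simp only [tr3, map_add, ← c' (nbi nf), ← c' nf, wf]
    have it : Inv b n w (tr3 b f) := ⟨bt, ntb nf, hw' _ (ntb nf) bt wt'⟩
    have h1 : InJ b n w (tr3 b f) := hJ f nf wf
    have h2 : InJ b n w (tr3 w γ) := trJ bγ nγ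
    rw [htr γ bγ nγ] at e
    have h4 : 1 - Y' ^ 3 * ρ = (2 * tr3 b f + (-1) * (tr3 b f * tr3 b f)) + tr3 w γ := by
      have : Y' ^ 3 * ρ = (1 - tr3 b f) ^ 2 - tr3 w γ := by rw [e]; abel
      rw [this]; noncomm_ring
    rw [h4]
    have i2 : Inv b n w (2 : R) := ⟨map_ofNat _ _, map_ofNat _ _, map_ofNat _ _⟩
    have i1 : Inv b n w (-1 : R) := ⟨by simp, by simp, by simp⟩
    exact ((h1.mul_left i2).add ((h1.mul_left it).mul_left i1)).add h2
  have H1 := H.next
  have H2 := H1.next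
  have d1 := d.next
  have d2 := d1.next
  have Z0 : tr3 b (0 : R) = 0 := by simp [tr3]
  obtain ⟨ρ0, i0, j0⟩ := main w H D Y d (fun x _ _ h => h) (fun _ _ _ => rfl)
    (fun f hn hw => ⟨f, 0, 0, ⟨hn, hw⟩, by simp, by simp, by rw [Z0, add_zero, add_zero]⟩)
  obtain ⟨ρ1, i1, j1⟩ := main _ H1 _ _ d1
    (fun x hn hb h => by
      simp only [RingHom.comp_apply] at h
      rw [cbw hn, hb] at h; exact h)
    (fun x hb hn => by
      simp only [tr3, RingHom.comp_apply, cbw hn, hb, cbw (nwi hn)])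
    (fun f hn hw => ⟨0, f, 0, by simp, ⟨hn, hw⟩, by simp, by rw [Z0, zero_add, add_zero]⟩)
  obtain ⟨ρ2, i2, j2⟩ := main _ H2 _ _ d2
    (fun x hn hb h => by
      simp only [RingHom.comp_apply] at h
      rw [cbw hn, hb, cbw hn, hb] at h; exact h)
    (fun x hb hn => by
      simp only [tr3, RingHom.comp_apply, cbw hn, hb, cbw (nwi hn)])
    (fun f hn hw => ⟨0, 0, f, by simp, by simp, ⟨hn, hw⟩, by rw [Z0, zero_add, zero_add]⟩)
  have iY : Inv b n w Y := ⟨d.bY, d.nY, d.wY⟩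
  have iadd : ∀ {x y : R}, Inv b n w x → Inv b n w y → Inv b n w (x + y) := fun hx hy =>
    ⟨by rw [map_add, hx.hb, hy.hb], by rw [map_add, hx.hn, hy.hn], by rw [map_add, hx.hw, hy.hw]⟩
  have isub : ∀ {x y : R}, Inv b n w x → Inv b n w y → Inv b n w (x - y) := fun hx hy =>
    ⟨by rw [map_sub, hx.hb, hy.hb], by rw [map_sub, hx.hn, hy.hn], by rw [map_sub, hx.hw, hy.hw]⟩
  have imul : ∀ {x y : R}, Inv b n w x → Inv b n w y → Inv b n w (x * y) := fun hx hy =>
    ⟨by rw [map_mul, hx.hb, hy.hb], by rw [map_mul, hx.hn, hy.hn], by rw [map_mul, hx.hw, hy.hw]⟩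
  have ipow : ∀ {x : R} (k : ℕ), Inv b n w x → Inv b n w (x ^ k) := fun k hx =>
    ⟨by rw [map_pow, hx.hb], by rw [map_pow, hx.hn], by rw [map_pow, hx.hw]⟩
  have i1 : Inv b n w (1 : R) := ⟨map_one _, map_one _, map_one _⟩
  have iY1 := iadd iY i1
  set ρ' := ρ2 * ρ1 * ρ0 with hρ'
  have iρ' : Inv b n w ρ' := imul (imul i2 ‹Inv b n w ρ1›) i0
  set u := (Y ^ 3 - Y) ^ 3 * ρ' with hu
  have iu : Inv b n w u := imul (ipow 3 (isub (ipow 3 iY) iY)) iρ'
  have ju : InJ b n w (1 - u) := by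
    have h1 := (j0.add ((j1.mul_left (ipow 3 iY)).mul_right i0)).add
      ((j2.mul_left (imul (ipow 3 iY) (ipow 3 iY1))).mul_right (imul ‹Inv b n w ρ1› i0))
    have e1 : Y ^ 3 * (Y + 1) ^ 3 * (Y + 1 + 1) ^ 3 = (Y ^ 3 - Y) ^ 3 := by
      linear_combination (norm := noncomm_ring)
        (3 * (Y ^ 3 - Y) ^ 2 * (Y ^ 2 + Y) + 9 * (Y ^ 3 - Y) * (Y ^ 2 + Y) ^ 2
          + 9 * (Y ^ 2 + Y) ^ 3) * h3
    have e2 : 1 - u = 1 - Y ^ 3 * ρ0 + Y ^ 3 * (1 - (Y + 1) ^ 3 * ρ1) * ρ0 +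
        Y ^ 3 * (Y + 1) ^ 3 * (1 - (Y + 1 + 1) ^ 3 * ρ2) * (ρ1 * ρ0) := by
      have e3 : u = Y ^ 3 * (Y + 1) ^ 3 * (Y + 1 + 1) ^ 3 * ρ2 * ρ1 * ρ0 := by
        rw [hu, ← e1, hρ']; simp only [mul_assoc]
      rw [e3]
      simp only [mul_sub, sub_mul, mul_one, mul_assoc]
      abel
    rw [e2]
    exact h1
  set g2 := gg Z D Y * ((Y ^ 3 - Y) ^ 2 * ρ') with hg2
  have ic : Inv b n w ((Y ^ 3 - Y) ^ 2 * ρ') := imul (ipow 2 (isub (ipow 3 iY) iY)) iρ'
  have bg : b g2 = g2 := by rw [hg2, map_mul, gg_b h3 d, ic.hb]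
  have ng : n g2 = g2 := by rw [hg2, map_mul, gg_n d, ic.hn]
  have wg : w g2 = g2 + u := by
    have h1 : w (gg Z D Y) = gg Z D Y + (Y ^ 3 - Y) := by rw [← gg_w h3 d]; abel
    rw [hg2, map_mul, ic.hw, h1, hu, pow_succ (Y ^ 3 - Y) 2]
    have h2 : Commute (Y ^ 3 - Y) ((Y ^ 3 - Y) ^ 2) := (Commute.refl _).pow_right 2
    rw [add_mul, ← mul_assoc (Y ^ 3 - Y), h2.eq, mul_assoc ((Y ^ 3 - Y) ^ 2)]
  have juu : InJ b n w (u * u) := by
    have h1 : InJ b n w (tr3 w (-(g2 * g2))) :=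
      trJ (by rw [map_neg, map_mul, bg]) (by rw [map_neg, map_mul, ng])
    have e1 : u * u = tr3 w (-(g2 * g2)) := by
      simp only [tr3, map_neg, map_mul, wg, map_add, iu.hw]
      linear_combination (norm := noncomm_ring) (g2 * g2 + g2 * u + u * g2 + 2 * (u * u)) * h3
    rw [e1]; exact h1
  have h1 := (juu.add ((ju.mul_left iu).add (ju.mul_right iu))).add
    (ju.mul_left (isub i1 iu))
  have e : u * u + (u * (1 - u) + (1 - u) * u) + (1 - u) * (1 - u) = 1 := by noncomm_ring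
  rw [e] at h1
  exact h1

end poly

end W371.PV
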